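import Mathlib
import Pool.Agent.W604.T.Fin

set_option autoImplicit false

/-!
# Finite type of quotient arc complexes

The definitions are in `Pool.Agent.W604.Def1`, `Pool.Agent.W604.Def2`, `Pool.Agent.W604.T.Def1` and
`Pool.Agent.W604.T.Def2`.
-/

namespace Pool.Agent.Results.MP_de6cd8_gt.FiniteType

open Pool.Agent.W604.ArcSS Pool.Agent.W604.FT

/-- For every bordered surface `F` there is a finite `n` such that the arc complex `Arc F` is a type
`n` space (the type 1 spaces being the arc complexes of the four type 1 surfaces). -/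
theorem result (F : Surf) :
    ∃ n : ℕ, Ty (fun M => ∃ F', Type1 F' ∧ M = ⟨_, Arc F'⟩) n ⟨_, Arc F⟩ :=
  arc_ty _ F

end Pool.Agent.Results.MP_de6cd8_gt.FiniteType
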